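import Pool.Agent.NTW.StmtsB

/-!
# Squad NTW (MP_e54c4c_gt), row LM1 (helper85): last part of the half space lemma
-/

set_option autoImplicit false

open Matrix Filter Topology

namespace Pool.Agent.NTW.H85

open Pool.Agent.PFS Pool.Agent.PFJ Pool.Agent.NTS

theorem lamC_cl {n : ℕ} {C : Set (V n)} {Γ : Subgroup (GL (Fin n) ℝ)} (hP : PCone C) {x : V n}
    (hx : x ∈ LamC C Γ) : x ∈ closure C := by
  obtain ⟨t, ht, u, hu, rfl⟩ := hx
  exact hP.cl_smul hu.2.1 ht.le

theorem sum_two {K : ℕ} (ν : Fin K → ℝ) (j k : Fin K) (hjk : j ≠ k)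
    (h : ∀ i, i ≠ j → i ≠ k → ν i = 0) : ∑ i, ν i = ν j + ν k := by
  classical
  rw [← Finset.add_sum_erase _ _ (Finset.mem_univ j),
    ← Finset.add_sum_erase _ _ (Finset.mem_erase.mpr ⟨hjk.symm, Finset.mem_univ k⟩)]
  rw [Finset.sum_eq_zero]
  · ring
  · intro i hi
    rw [Finset.mem_erase, Finset.mem_erase] at hi
    exact h i hi.2.1 hi.1

theorem lm1 (nbd : NbdStmt) (two : TwoStmt) (edc : EdcStmt) : Lm1Stmt := by
  classical
  intro n C Γ hCC K hK hMax w y k ν hw hy hnotmul hbelow hkuniq hν hsum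
  have hP : PCone C := hCC.toPCone
  have hycl : y ∈ closure C := lamC_cl hP hy
  obtain ⟨j, hjk, hj⟩ : ∃ j, j ≠ k ∧ 0 < ν j := by
    by_contra hcon
    have hz : ∀ i, i ≠ k → ν i = 0 := by
      intro i hi
      exact le_antisymm (not_lt.mp fun h => hcon ⟨i, hi, h⟩) (hkuniq i hi)
    have e : ∑ i, ν i = ν k := Finset.sum_eq_single k (fun i _ hi => hz i hi)
      (fun h => absurd (Finset.mem_univ k) h)
    rw [hsum] at e
    apply hν
    funext i
    by_cases h : i = k
    · rw [h, ← e]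
      rfl
    · exact hz i h
  have hothers : ∀ i, i ≠ j → i ≠ k → ν i = 0 := by
    intro j' hj'j hj'k
    by_contra hne0
    have hj' : 0 < ν j' := lt_of_le_of_ne (hkuniq j' hj'k) (Ne.symm hne0)
    obtain ⟨i0, hi0, hmem⟩ := two n C Γ hCC K (by omega) hMax w y k hw hy hnotmul
    by_cases h : j = i0
    · exact nbd n C hP K w y k ν hw.1 hycl hbelow hkuniq i0 j' hi0 hj'k
        (by rw [← h]; exact hj'j) hj' hmem
    · exact nbd n C hP K w y k ν hw.1 hycl hbelow hkuniq i0 j hi0 hjk h hj hmem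
  have hkj : ν k = -ν j := by
    have e := sum_two ν j k hjk hothers
    rw [hsum] at e
    linarith
  exact ⟨j, hjk, hj, hkj, hothers,
    edc n C hP K w y k j ν (fun i => hw.1.cl i) hbelow hjk hj hothers⟩

end Pool.Agent.NTW.H85
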